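import Pool.Agent.Helper97_XQ.Base3

/-!
Squad XQ (MP_5b0138_an), part A4, module A4_LO3: geometry of the lower bound of G3 (helper97).
-/

set_option autoImplicit false

namespace Pool.Agent.XQ.K4.H97

open Complex Pool.Agent.H16Iso

theorem lo3 (hP : PolStatement) (hN : Nr3Statement) (hE : El3Statement) : Lo3Statement := by
  intro η1 η2 ζ1 ζ2 d ρ hy hρ
  obtain ⟨δ, l, hδ, hδd, hl, hl2, hc⟩ := cfg hP hN hE hy hρ
  refine ⟨δ, l, hδ, hl, ?_⟩
  intro n _ a b x A ha hab hbn hpa hcns hsho hex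
  by_contra hln
  push Not at hln
  have hd := hy.dpos
  obtain ⟨hS0, hS1, hS2, ⟨hw1, hw2⟩, _, hv1, hv2⟩ := hpa
  change ∀ s ∈ Mw ζ1 ζ2, ∃ l : ℕ, l < a ∧ s ∈ A (Fin.ofNat n l) at hw1
  change ∀ s ∈ Mv η1 η2, ∃ l : ℕ, b ≤ l ∧ l < n ∧ s ∈ A (Fin.ofNat n l) at hv1
  change ∀ l : ℕ, l < a → Disjoint (A (Fin.ofNat n l)) (Ew ζ1 ζ2) at hw2
  change ∀ l : ℕ, b ≤ l → l < n → Disjoint (A (Fin.ofNat n l)) (Ev η1 η2) at hv2
  change x 0 ∈ Rct (9 / 20 * d) (11 / 20 * d) ρ at hS0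
  change x (Fin.ofNat n a) ∈ Rct (12 / 20 * d) (13 / 20 * d) ρ at hS1
  change x (Fin.ofNat n b) ∈ Rct (7 / 20 * d) (8 / 20 * d) ρ at hS2
  have C := hc n x A
    (fun s hs => by
      obtain ⟨j, hj1, hj2, hj3⟩ := hv1 s hs
      exact ⟨_, hj3, fun e he hea => (Finset.disjoint_left.1 (hv2 j hj1 hj2) hea) he⟩)
    (fun s hs => by
      obtain ⟨j, hj1, hj2⟩ := hw1 s hs
      exact ⟨_, hj2, fun e he hea => (Finset.disjoint_left.1 (hw2 j hj1) hea) he⟩)
    hcns hsho hln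
  obtain ⟨sv, hsv⟩ := Mv_ne hy
  obtain ⟨sw, hsw⟩ := Mw_ne hy
  obtain ⟨kv, hkv1, hkv2, hkv3⟩ := hv1 sv hsv
  obtain ⟨kw, hkw1, hkw2⟩ := hw1 sw hsw
  set y : ℕ → ℂ := fun i => x (Fin.ofNat n i) with hyd
  have hyn : y n = y 0 := by simp only [hyd]; rw [ofNat_period, ofNat_zero']
  have hlen : LL y 0 n < l := by
    have h2 := Pl_eq x
    have h3 : LL y 0 n = Pl x := h2.symm
    rw [h3]
    exact C.len
  have g0 : 9 / 20 * d < (y 0).re ∧ (y 0).re < 11 / 20 * d := by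
    simp only [hyd]
    rw [ofNat_zero']
    exact ⟨hS0.1, hS0.2.1⟩
  have ga : 12 / 20 * d < (y a).re ∧ (y a).re < 13 / 20 * d := ⟨hS1.1, hS1.2.1⟩
  have gb : 7 / 20 * d < (y b).re ∧ (y b).re < 8 / 20 * d := ⟨hS2.1, hS2.2.1⟩
  have gv := abs_lt.1 (C.v _ sv hkv3 (mem_Mv hsv))
  have gw := abs_lt.1 (C.w _ sw hkw2 (mem_Mw hsw))
  change -(d / 100) < (y kv).re ∧ (y kv).re < d / 100 at gv
  change -(d / 100) < (y kw).re - d ∧ (y kw).re - d < d / 100 at gw
  -- the forbidden label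
  obtain ⟨j, hj⟩ := hex
  rw [Finset.not_disjoint_iff] at hj
  obtain ⟨e, he1, he2⟩ := hj
  obtain ⟨k, hkn, hk⟩ : ∃ k : ℕ, k < n ∧ Fin.ofNat n k = j := ⟨j.val, j.isLt, ofNat_self j⟩
  rw [← hk] at he1
  rcases Finset.mem_union.1 he2 with he3 | he3
  · -- near `0` before `b`
    have hkb : k < b := by
      by_contra h
      push Not at h
      exact Finset.disjoint_left.1 (hv2 k h hkn) he1 he3
    have gk := abs_lt.1 (C.v _ e he1 (mem_Ev he3))
    change -(d / 100) < (y k).re ∧ (y k).re < d / 100 at gk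
    rcases lt_or_ge k kw with h | h
    · have e1 := LL_add y (Nat.zero_le k) h.le
      have e2 := LL_add y (Nat.zero_le kw) (hkw1.trans hab).le
      have e3 := LL_add y (Nat.zero_le b) hkv1
      have e4 := LL_add y (Nat.zero_le kv) hkv2.le
      have f1 := LL_re1 y (Nat.zero_le k)
      have f2 := LL_re2 y h.le
      have f3 := LL_re1 y (hkw1.trans hab).le
      have f4 := LL_re1 y hkv1
      have f5 := LL_re2 y hkv2.le
      rw [hyn] at f5
      linarith [g0.1, g0.2, gb.1, gb.2, gv.1, gv.2, gw.1, gw.2, gk.1, gk.2]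
    · have e1 := LL_add y (Nat.zero_le kw) h
      have e2 := LL_add y (Nat.zero_le k) hkb.le
      have e3 := LL_add y (Nat.zero_le b) hkv1
      have e4 := LL_add y (Nat.zero_le kv) hkv2.le
      have f1 := LL_re2 y (Nat.zero_le kw)
      have f2 := LL_re1 y h
      have f3 := LL_re2 y hkb.le
      have f4 := LL_re1 y hkv1
      have f5 := LL_re2 y hkv2.le
      rw [hyn] at f5
      linarith [g0.1, g0.2, gb.1, gb.2, gv.1, gv.2, gw.1, gw.2, gk.1, gk.2]
  · -- near `d` after `a`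
    have hka : a ≤ k := by
      by_contra h
      push Not at h
      exact Finset.disjoint_left.1 (hw2 k h) he1 he3
    have gk := abs_lt.1 (C.w _ e he1 (mem_Ew he3))
    change -(d / 100) < (y k).re - d ∧ (y k).re - d < d / 100 at gk
    rcases lt_or_ge k kv with h | h
    · have e1 := LL_add y (Nat.zero_le kw) hkw1.le
      have e2 := LL_add y (Nat.zero_le a) hka
      have e3 := LL_add y (Nat.zero_le k) h.le
      have e4 := LL_add y (Nat.zero_le kv) hkv2.le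
      have f1 := LL_re2 y (Nat.zero_le kw)
      have f2 := LL_re1 y hkw1.le
      have f3 := LL_re2 y hka
      have f4 := LL_re1 y h.le
      have f5 := LL_re2 y hkv2.le
      rw [hyn] at f5
      linarith [g0.1, g0.2, ga.1, ga.2, gv.1, gv.2, gw.1, gw.2, gk.1, gk.2]
    · have e1 := LL_add y (Nat.zero_le kw) (hkw1.trans (hab.trans_le hkv1)).le
      have e2 := LL_add y (Nat.zero_le kv) h
      have e3 := LL_add y (Nat.zero_le k) hkn.le
      have f1 := LL_re2 y (Nat.zero_le kw)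
      have f2 := LL_re1 y (hkw1.trans (hab.trans_le hkv1)).le
      have f3 := LL_re2 y h
      have f4 := LL_re1 y hkn.le
      rw [hyn] at f4
      linarith [g0.1, g0.2, ga.1, ga.2, gv.1, gv.2, gw.1, gw.2, gk.1, gk.2]

end Pool.Agent.XQ.K4.H97
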