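import Pool.Agent.Helper97_XQ.Base3

/-!
Squad XQ (MP_5b0138_an), part A4, module A4_UP3: geometry of the upper bound of G3 (helper97).
-/

set_option autoImplicit false

namespace Pool.Agent.XQ.K4.H97

open Complex Pool.Agent.H16Iso

theorem up3 (hP : PolStatement) (hN : Nr3Statement) (hE : El3Statement) : Up3Statement := by
  intro η1 η2 ζ1 ζ2 d ρ hy hρ
  obtain ⟨δ, l, hδ, hδd, hl, hl2, hc⟩ := cfg hP hN hE hy hρ
  refine ⟨δ, l, hδ, hl, ?_⟩
  intro n _ x A hvis hcns hsho hln
  have hd := hy.dpos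
  obtain ⟨hv1, hv2⟩ := hvis
  have hdis : ∀ j, Disjoint (A j) (Ev η1 η2) ∧ Disjoint (A j) (Ew ζ1 ζ2) := by
    intro j
    have := hv2 j
    rw [Finset.disjoint_union_right] at this
    exact this
  have C := hc n x A
    (fun s hs => by
      obtain ⟨j, hj⟩ := hv1 s (Finset.mem_union_left _ hs)
      exact ⟨j, hj, fun e he hea => (Finset.disjoint_left.1 (hdis j).1 hea) he⟩)
    (fun s hs => by
      obtain ⟨j, hj⟩ := hv1 s (Finset.mem_union_right _ hs)
      exact ⟨j, hj, fun e he hea => (Finset.disjoint_left.1 (hdis j).2 hea) he⟩)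
    hcns hsho hln
  obtain ⟨sv, hsv⟩ := Mv_ne hy
  obtain ⟨sw, hsw⟩ := Mw_ne hy
  obtain ⟨j0, hj0⟩ := hv1 sv (Finset.mem_union_left _ hsv)
  obtain ⟨jw, hjw⟩ := hv1 sw (Finset.mem_union_right _ hsw)
  -- the path starting near `0`
  set y : ℕ → ℂ := fun i => x (Fin.ofNat n i + j0) with hyd
  set B : ℕ → Finset (Fin 4) := fun i => A (Fin.ofNat n i + j0) with hBd
  have hyn : y n = y 0 := by simp only [hyd]; rw [ofNat_period, ofNat_zero']
  have hlen : LL y 0 n < l := by
    have h1 := hP.2.2.2.1 n x j0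
    have h2 := Pl_eq (rot j0 x)
    have h3 : LL y 0 n = Pl (rot j0 x) := h2.symm
    rw [h3, h1]
    exact C.len
  have hyst : ∀ i, |(y i).re - (y (i + 1)).re| < δ := by
    intro i
    have := C.st (Fin.ofNat n i + j0)
    have h2 : Fin.ofNat n i + j0 + 1 = Fin.ofNat n (i + 1) + j0 := by
      rw [← ofNat_succ]; abel
    rw [h2] at this
    exact this
  have hyim : ∀ i, |(y i).im| < ρ := fun i => C.im _
  have hylo : ∀ i, -(d / 100) < (y i).re := fun i => C.lo _
  have hyhi : ∀ i, (y i).re < d + d / 100 := fun i => C.hi _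
  have hyv : ∀ i s, s ∈ B i → (s = 0 ∨ s = 1) → |(y i).re| < d / 100 := fun i s => C.v _ s
  have hyw : ∀ i s, s ∈ B i → (s = 2 ∨ s = 3) → |(y i).re - d| < d / 100 := fun i s => C.w _ s
  -- every index is a shifted index
  have hidx : ∀ j : Fin n, ∃ i : ℕ, i < n ∧ Fin.ofNat n i + j0 = j := by
    intro j
    refine ⟨(j - j0).val, (j - j0).isLt, ?_⟩
    rw [ofNat_self]; abel
  have hy0 : |(y 0).re| < d / 100 := by
    apply hyv 0 sv _ (mem_Mv hsv)
    simp only [hBd]
    rw [ofNat_zero', zero_add]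
    exact hj0
  have hy0' := abs_lt.1 hy0
  obtain ⟨w1, hw1n, hw1⟩ := hidx jw
  have hyw1 : |(y w1).re - d| < d / 100 := by
    apply hyw w1 sw _ (mem_Mw hsw)
    simp only [hBd]
    rw [hw1]
    exact hjw
  have hyw1' := abs_lt.1 hyw1
  have hw1pos : 0 < w1 := by
    rcases Nat.eq_zero_or_pos w1 with h | h
    · rw [h] at hyw1'
      linarith [hyw1'.1, hy0'.2]
    · exact h
  -- the last index before `w1` with real part below `11/20 d`
  have hex0 : ∃ i0, i0 < w1 ∧ (y i0).re < 11 / 20 * d ∧ ∀ i, i0 < i → i ≤ w1 → 11 / 20 * d ≤ (y i).re := by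
    have hP0 : (fun i => (y i).re < 11 / 20 * d) 0 := by
      show (y 0).re < 11 / 20 * d
      linarith only [hy0', hy0'.2]
    let i0 := Nat.findGreatest (fun i => (y i).re < 11 / 20 * d) w1
    have h1 : (y i0).re < 11 / 20 * d :=
      Nat.findGreatest_spec (P := fun i => (y i).re < 11 / 20 * d) (Nat.zero_le w1) hP0
    have h2 : i0 ≤ w1 := Nat.findGreatest_le w1
    have h3 : i0 ≠ w1 := by
      intro h
      rw [h] at h1
      linarith only [hyw1', h1, hyw1'.1]
    refine ⟨i0, lt_of_le_of_ne h2 h3, h1, ?_⟩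
    intro i hi hiw
    have := Nat.findGreatest_is_greatest (P := fun i => (y i).re < 11 / 20 * d) hi hiw
    push Not at this
    exact this
  obtain ⟨i0, hi0w, hi0a, hi0b⟩ := hex0
  have hi0c : 9 / 20 * d < (y i0).re := by
    have h1 := hi0b (i0 + 1) (Nat.lt_succ_self _) hi0w
    have h2 := abs_lt.1 (hyst i0)
    linarith only [hδd, h1, h2, h2.1]
  -- first index after `w1` below a level
  have hfirst : ∀ c : ℝ, 1 / 10 * d < c → c < 9 / 10 * d → ∃ i1, w1 < i1 ∧ i1 < n ∧ (y i1).re < c ∧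
      c - d / 100 < (y i1).re ∧ ∀ i, w1 < i → i < i1 → c ≤ (y i).re := by
    intro c hc1 hc2
    classical
    have hex : ∃ i, w1 < i ∧ (y i).re < c := by
      refine ⟨n, hw1n, ?_⟩
      rw [hyn]
      linarith only [hy0', hc1, hy0'.2]
    have h1 := Nat.find_spec hex
    have h2 : ∀ i, w1 < i → i < Nat.find hex → c ≤ (y i).re := by
      intro i hi hif
      have := Nat.find_min hex hif
      push Not at this
      exact this hi
    have h3 : c - d / 100 < (y (Nat.find hex)).re := by
      obtain ⟨k, hk⟩ : ∃ k, Nat.find hex = k + 1 :=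
        ⟨Nat.find hex - 1, by have := h1.1; omega⟩
      have h4 := abs_lt.1 (hyst k)
      have h5 : c ≤ (y k).re := by
        rcases eq_or_lt_of_le (show w1 ≤ k by have := h1.1; omega) with h | h
        · rw [← h]; linarith only [hyw1', hc2, hyw1'.1]
        · exact h2 k h (by omega)
      rw [hk]
      linarith only [hδd, h4, h5, h4.1]
    have h4 : Nat.find hex < n := by
      have h5 : Nat.find hex ≤ n := by
        apply Nat.find_min' hex
        refine ⟨hw1n, ?_⟩
        rw [hyn]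
        linarith only [hc1, h1, h3, hy0'.2]
      rcases lt_or_eq_of_le h5 with h6 | h6
      · exact h6
      · exfalso
        rw [h6, hyn] at h3
        linarith only [hy0', hc1, h3, hy0'.2]
    exact ⟨Nat.find hex, h1.1, h4, h1.2, h3, h2⟩
  obtain ⟨i1, hi1w, hi1n, hi1a, hi1b, hi1c⟩ := hfirst (13 / 20 * d) (by linarith only [hδ, hδd]) (by linarith)
  obtain ⟨i2, hi2w, hi2n, hi2a, hi2b, hi2c⟩ := hfirst (8 / 20 * d) (by linarith only [hδ, hδd]) (by linarith only [hδ, hδd])
  have hi12 : i1 < i2 := by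
    rcases lt_trichotomy i1 i2 with h | h | h
    · exact h
    · exfalso
      rw [← h] at hi2a
      linarith only [hδ, hδd, hi1b, hi2a]
    · exfalso
      have := hi1c i2 hi2w h
      linarith only [hδ, hδd, hi2a, this]
  -- transfer to the rotated configuration
  have hrx : ∀ i : ℕ, rot (Fin.ofNat n i0 + j0) x (Fin.ofNat n i) = y (i + i0) := by
    intro i
    simp only [hyd, rot]
    rw [← ofNat_add, add_assoc]
  have hrA : ∀ i : ℕ, rot (Fin.ofNat n i0 + j0) A (Fin.ofNat n i) = B (i + i0) := by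
    intro i
    simp only [hBd, rot]
    rw [← ofNat_add, add_assoc]
  have hBper : ∀ i : ℕ, B (i + n) = B i := by
    intro i
    simp only [hBd]
    rw [← ofNat_add, ofNat_period, add_zero]
  refine ⟨Fin.ofNat n i0 + j0, i1 - i0, i2 - i0, by omega, by omega, by omega, Or.inl ?_⟩
  refine ⟨?_, ?_, ?_, ⟨?_, ?_⟩, ⟨?_, ?_⟩, ?_, ?_⟩
  · have h := hrx 0
    rw [ofNat_zero', zero_add] at h
    rw [h]
    exact ⟨hi0c, hi0a, hyim i0⟩
  · rw [hrx, show i1 - i0 + i0 = i1 by omega]
    refine ⟨?_, hi1a, hyim i1⟩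
    linarith only [hδ, hδd, hi1b]
  · rw [hrx, show i2 - i0 + i0 = i2 by omega]
    refine ⟨?_, hi2a, hyim i2⟩
    linarith only [hδ, hδd, hi2b]
  · -- visits near `d` are on arc 0
    intro s hs
    change s ∈ Mw ζ1 ζ2 at hs
    obtain ⟨j, hj⟩ := hv1 s (Finset.mem_union_right _ hs)
    obtain ⟨i, hin, hi⟩ := hidx j
    have hBi : s ∈ B i := by
      simp only [hBd]
      rw [hi]
      exact hj
    have hri := abs_lt.1 (hyw i s hBi (mem_Mw hs))
    have key : i0 ≤ i ∧ i < i1 := by
      by_contra hcon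
      have h3 : i < i0 ∨ i1 ≤ i := by omega
      rcases h3 with h3 | h3
      · have e1 := LL_add y (Nat.zero_le i) h3.le
        have e2 := LL_add y (Nat.zero_le i0) hi0w.le
        have e3 := LL_add y (Nat.zero_le w1) hw1n.le
        have f1 := LL_re2 y (Nat.zero_le i)
        have f2 := LL_re1 y h3.le
        have f3 := LL_re2 y hi0w.le
        have f4 := LL_re1 y hw1n.le
        rw [hyn] at f4
        linarith only [hδ, hδd, hl2, hlen, hy0', hyw1', hi0a, hri, e1, e2, e3, f1, f2, f3, f4, hri.1, hri.2, hyw1'.1, hyw1'.2, hy0'.1, hy0'.2]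
      · have e1 := LL_add y (Nat.zero_le w1) hi1w.le
        have e2 := LL_add y (Nat.zero_le i1) h3
        have e3 := LL_add y (Nat.zero_le i) hin.le
        have f1 := LL_re2 y (Nat.zero_le w1)
        have f2 := LL_re1 y hi1w.le
        have f3 := LL_re2 y h3
        have f4 := LL_re1 y hin.le
        rw [hyn] at f4
        linarith only [hδ, hδd, hl2, hlen, hy0', hyw1', hi1a, hri, e1, e2, e3, f1, f2, f3, f4, hri.1, hri.2, hyw1'.1, hyw1'.2, hy0'.1, hy0'.2]
    refine ⟨i - i0, by omega, ?_⟩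
    rw [hrA, show i - i0 + i0 = i by omega]
    exact hBi
  · intro i _
    rw [hrA]
    exact (hdis _).2
  · intro s hs
    simp [M3] at hs
  · intro i _ _
    simp [E3]
  · -- visits near `0` are on arc 2
    intro s hs
    change s ∈ Mv η1 η2 at hs
    obtain ⟨j, hj⟩ := hv1 s (Finset.mem_union_left _ hs)
    obtain ⟨i, hin, hi⟩ := hidx j
    have hBi : s ∈ B i := by
      simp only [hBd]
      rw [hi]
      exact hj
    have hri := abs_lt.1 (hyv i s hBi (mem_Mv hs))
    have key : i < i0 ∨ i2 ≤ i := by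
      by_contra hcon
      have h3 : i0 ≤ i ∧ i < i2 := by omega
      rcases lt_or_ge w1 i with h4 | h4
      · have := hi2c i h4 h3.2
        linarith only [hri, this, hri.2]
      · have e1 := LL_add y (Nat.zero_le i0) h3.1
        have e2 := LL_add y (Nat.zero_le i) h4
        have e3 := LL_add y (Nat.zero_le w1) hw1n.le
        have f1 := LL_re2 y (Nat.zero_le i0)
        have f2 := LL_re1 y h3.1
        have f3 := LL_re2 y h4
        have f4 := LL_re1 y hw1n.le
        rw [hyn] at f4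
        linarith only [hδ, hδd, hl2, hlen, hy0', hyw1', hi0c, hri, e1, e2, e3, f1, f2, f3, f4, hri.1, hri.2, hyw1'.1, hyw1'.2, hy0'.1, hy0'.2]
    rcases key with h | h
    · refine ⟨i + n - i0, by omega, by omega, ?_⟩
      rw [hrA, show i + n - i0 + i0 = i + n by omega, hBper]
      exact hBi
    · refine ⟨i - i0, by omega, by omega, ?_⟩
      rw [hrA, show i - i0 + i0 = i by omega]
      exact hBi
  · intro i _ _
    rw [hrA]
    exact (hdis _).1

end Pool.Agent.XQ.K4.H97
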