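import Pool.Agent.Helper36_XQ.Stmt4

/-!
Squad XQ (MP_5b0138_an), part A4: common facts for the modules UP3 and LO3 (helper97).
-/

set_option autoImplicit false

namespace Pool.Agent.XQ.K4.H97

open Complex Pool.Agent.H16Iso

/-- length of the piece of a path between two indices -/
noncomputable def LL (y : ℕ → ℂ) (a b : ℕ) : ℝ := ∑ i ∈ Finset.Ico a b, ‖y i - y (i + 1)‖

theorem LL_add (y : ℕ → ℂ) {a b c : ℕ} (h1 : a ≤ b) (h2 : b ≤ c) :
    LL y a b + LL y b c = LL y a c := Finset.sum_Ico_consecutive _ h1 h2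

theorem LL_re (y : ℕ → ℂ) {a b : ℕ} (h : a ≤ b) :
    |(y a).re - (y b).re| ≤ LL y a b := by
  have h1 : dist (y a) (y b) ≤ ∑ i ∈ Finset.Ico a b, dist (y i) (y (i + 1)) :=
    dist_le_Ico_sum_dist y h
  have h2 : |(y a - y b).re| ≤ ‖y a - y b‖ := Complex.abs_re_le_norm _
  rw [Complex.sub_re] at h2
  rw [LL]
  simp only [dist_eq_norm] at h1
  linarith

theorem LL_re1 (y : ℕ → ℂ) {a b : ℕ} (h : a ≤ b) : (y a).re - (y b).re ≤ LL y a b :=
  (le_abs_self _).trans (LL_re y h)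

theorem LL_re2 (y : ℕ → ℂ) {a b : ℕ} (h : a ≤ b) : (y b).re - (y a).re ≤ LL y a b := by
  have := (neg_le_abs ((y a).re - (y b).re)).trans (LL_re y h)
  linarith

theorem ofNat_self {n : ℕ} [NeZero n] (j : Fin n) : Fin.ofNat n j.val = j :=
  Fin.ext (Nat.mod_eq_of_lt j.isLt)

theorem ofNat_add {n : ℕ} [NeZero n] (a b : ℕ) : Fin.ofNat n a + Fin.ofNat n b = Fin.ofNat n (a + b) := by
  apply Fin.ext
  simp [Fin.val_add, Fin.ofNat]

theorem ofNat_succ {n : ℕ} [NeZero n] (a : ℕ) : Fin.ofNat n a + 1 = Fin.ofNat n (a + 1) := by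
  rw [← ofNat_add]
  congr 1

theorem ofNat_period {n : ℕ} [NeZero n] : Fin.ofNat n n = 0 := by
  apply Fin.ext
  simp [Fin.ofNat]

theorem ofNat_zero' {n : ℕ} [NeZero n] : Fin.ofNat n 0 = 0 := by
  apply Fin.ext
  simp [Fin.ofNat]

/-- the closed polygon as a path -/
theorem Pl_eq {n : ℕ} [NeZero n] (x : Fin n → ℂ) :
    Pl x = LL (fun i => x (Fin.ofNat n i)) 0 n := by
  unfold Pl LL
  rw [Nat.Ico_zero_eq_range, ← Fin.sum_univ_eq_sum_range
    (fun i => ‖x (Fin.ofNat n i) - x (Fin.ofNat n (i + 1))‖)]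
  apply Finset.sum_congr rfl
  intro j _
  rw [← ofNat_succ, ofNat_self]

theorem mem_Mv {η1 η2 : ℝ} {s : Fin 4} (h : s ∈ Mv η1 η2) : s = 0 ∨ s = 1 := by
  unfold Mv at h
  rw [Finset.mem_union] at h
  rcases h with h | h
  · split_ifs at h
    · left; simpa using h
    · simp at h
  · split_ifs at h
    · right; simpa using h
    · simp at h

theorem mem_Ev {η1 η2 : ℝ} {s : Fin 4} (h : s ∈ Ev η1 η2) : s = 0 ∨ s = 1 := by
  unfold Ev at h
  rw [Finset.mem_union] at h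
  rcases h with h | h
  · split_ifs at h
    · simp at h
    · left; simpa using h
  · split_ifs at h
    · simp at h
    · right; simpa using h

theorem mem_Mw {ζ1 ζ2 : ℝ} {s : Fin 4} (h : s ∈ Mw ζ1 ζ2) : s = 2 ∨ s = 3 := by
  unfold Mw at h
  rw [Finset.mem_union] at h
  rcases h with h | h
  · split_ifs at h
    · left; simpa using h
    · simp at h
  · split_ifs at h
    · right; simpa using h
    · simp at h

theorem mem_Ew {ζ1 ζ2 : ℝ} {s : Fin 4} (h : s ∈ Ew ζ1 ζ2) : s = 2 ∨ s = 3 := by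
  unfold Ew at h
  rw [Finset.mem_union] at h
  rcases h with h | h
  · split_ifs at h
    · simp at h
    · left; simpa using h
  · split_ifs at h
    · simp at h
    · right; simpa using h

theorem Mv_ne {η1 η2 ζ1 ζ2 d : ℝ} (hy : Hy3 η1 η2 ζ1 ζ2 d) : ∃ s, s ∈ Mv η1 η2 := by
  unfold Mv
  by_cases h : η2 < Real.pi / 2
  · exact ⟨0, by simp [h]⟩
  · have : η1 < Real.pi / 2 := by have := hy.a4; push Not at h; linarith
    exact ⟨1, by simp [this]⟩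

theorem Mw_ne {η1 η2 ζ1 ζ2 d : ℝ} (hy : Hy3 η1 η2 ζ1 ζ2 d) : ∃ s, s ∈ Mw ζ1 ζ2 := by
  unfold Mw
  by_cases h : ζ2 < Real.pi / 2
  · exact ⟨2, by simp [h]⟩
  · have : ζ1 < Real.pi / 2 := by have := hy.b4; push Not at h; linarith
    exact ⟨3, by simp [this]⟩

/-- what is known about a nearly minimal configuration -/
structure Cfg (d ρ δ l : ℝ) {n : ℕ} [NeZero n] (x : Fin n → ℂ) (A : Fin n → Finset (Fin 4)) :
    Prop where
  len : Pl x < l
  im : ∀ j, |(x j).im| < ρ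
  lo : ∀ j, -(d / 100) < (x j).re
  hi : ∀ j, (x j).re < d + d / 100
  v : ∀ j s, s ∈ A j → (s = 0 ∨ s = 1) → |(x j).re| < d / 100
  w : ∀ j s, s ∈ A j → (s = 2 ∨ s = 3) → |(x j).re - d| < d / 100
  st : ∀ j, |(x j).re - (x (j + 1)).re| < δ

theorem cfg (hP : PolStatement) (hN : Nr3Statement) (hE : El3Statement) {η1 η2 ζ1 ζ2 d ρ : ℝ}
    (hy : Hy3 η1 η2 ζ1 ζ2 d) (hρ : 0 < ρ) : ∃ δ l : ℝ, 0 < δ ∧ δ ≤ d / 100 ∧ 2 * d < l ∧
      l ≤ 9 / 4 * d ∧ ∀ (n : ℕ) [NeZero n] (x : Fin n → ℂ) (A : Fin n → Finset (Fin 4)),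
      (∀ s ∈ Mv η1 η2, ∃ j, s ∈ A j ∧ ∀ e ∈ Ev η1 η2, e ∉ A j) →
      (∀ s ∈ Mw ζ1 ζ2, ∃ j, s ∈ A j ∧ ∀ e ∈ Ew ζ1 ζ2, e ∉ A j) →
      Cns (u3 η1 η2 ζ1 ζ2) (h3 ζ1 ζ2 d) x A → Sho (u3 η1 η2 ζ1 ζ2) (h3 ζ1 ζ2 d) δ x A →
      Ln (u3 η1 η2 ζ1 ζ2) (h3 ζ1 ζ2 d) x A < l → Cfg d ρ δ l x A := by
  have hd := hy.dpos
  obtain ⟨ρ1, hρ1, hel⟩ := hE η1 η2 ζ1 ζ2 d (min ρ (d / 100)) hy (lt_min hρ (by linarith))
  obtain ⟨δ3, hδ3, hnr⟩ := hN η1 η2 ζ1 ζ2 d ρ1 hy hρ1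
  have hu : ∀ s, ‖u3 η1 η2 ζ1 ζ2 s‖ = 1 := by
    intro s
    fin_cases s
    · simp [u3, Complex.norm_exp]
    · simp [u3, Complex.norm_exp]
    · simp [u3, Complex.norm_exp]
    · simp [u3, Complex.norm_exp]
  refine ⟨min δ3 (min ρ1 (d / 100)), min (2 * d + δ3) (9 / 4 * d),
    lt_min hδ3 (lt_min hρ1 (by linarith)), (min_le_right _ _).trans (min_le_right _ _),
    lt_min (by linarith) (by linarith), min_le_right _ _, ?_⟩
  intro n _ x A hmv hmw hcns hsho hln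
  obtain ⟨hp1, hp2, hp3⟩ := hP.2.2.2.2 (u3 η1 η2 ζ1 ζ2) (h3 ζ1 ζ2 d) n x A hu
  obtain ⟨hs1, hs2⟩ := hp3 _ hsho
  have hPl : Pl x < min (2 * d + δ3) (9 / 4 * d) := lt_of_le_of_lt hp1 hln
  have hall := hnr n x (lt_of_lt_of_le hPl (min_le_left _ _))
    (by
      intro s hs
      obtain ⟨j, hj, he⟩ := hmv s hs
      refine ⟨j, ?_, fun e hee => ((hcns j e (he e hee)).1).le⟩
      have h1 := hs2 j s hj
      have h2 : min δ3 (min ρ1 (d / 100)) ≤ δ3 := min_le_left _ _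
      linarith)
    (by
      intro s hs
      obtain ⟨j, hj, he⟩ := hmw s hs
      refine ⟨j, ?_, fun e hee => ((hcns j e (he e hee)).1).le⟩
      have h1 := hs2 j s hj
      have h2 : min δ3 (min ρ1 (d / 100)) ≤ δ3 := min_le_left _ _
      linarith)
  have hδρ : min δ3 (min ρ1 (d / 100)) ≤ ρ1 := (min_le_right _ _).trans (min_le_left _ _)
  have hm1 : min ρ (d / 100) ≤ ρ := min_le_left _ _
  have hm2 : min ρ (d / 100) ≤ d / 100 := min_le_right _ _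
  refine ⟨hPl, ?_, ?_, ?_, ?_, ?_, ?_⟩
  · intro j
    exact lt_of_lt_of_le (hel _ (hall j)).1 hm1
  · intro j
    have := (hel _ (hall j)).2.1
    linarith
  · intro j
    have := (hel _ (hall j)).2.2.1
    linarith
  · intro j s hj hs
    have h1 := (hel _ (hall j)).2.2.2.1 s hs (by have := hs2 j s hj; linarith)
    have h2 := Complex.abs_re_le_norm (x j)
    linarith
  · intro j s hj hs
    have h1 := (hel _ (hall j)).2.2.2.2 s hs (by have := hs2 j s hj; linarith)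
    have h2 := Complex.abs_re_le_norm (x j - d)
    rw [Complex.sub_re, Complex.ofReal_re] at h2
    linarith
  · intro j
    have h1 := hs1 j
    have h2 := Complex.abs_re_le_norm (x j - x (j + 1))
    rw [Complex.sub_re] at h2
    linarith

end Pool.Agent.XQ.K4.H97
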